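import Pool.Agent.Lib.MP_e54452_nt.TF.Exp

/-!
# Families of polynomial growth
-/

set_option autoImplicit false

namespace MPe54452

open Filter Topology

/-- `-log (1 - e^(-z))` is at most `M z^(-1/2) (1+z)^(-(r+1))`. -/
lemma log_bound (r : ℕ) {z : ℝ} (hz : 0 < z) :
    Real.log ((1 - Real.exp (-z))⁻¹) ≤
      (2 : ℝ) ^ (r + 2) * (r + 2).factorial / (Real.sqrt z * (1 + z) ^ (r + 1)) := by
  have hez : Real.exp (-z) < 1 := by rw [Real.exp_lt_one_iff]; linarith
  have h1e : 0 < 1 - Real.exp (-z) := by linarith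
  have hs : 0 < Real.sqrt z := Real.sqrt_pos.2 hz
  have hden : 0 < Real.sqrt z * (1 + z) ^ (r + 1) := by positivity
  have hfac : (1 : ℝ) ≤ (r + 2).factorial := by exact_mod_cast Nat.one_le_iff_ne_zero.2 (Nat.factorial_ne_zero _)
  rw [le_div_iff₀ hden]
  rcases le_or_gt z 1 with h1 | h1
  · -- small z: log (1 + 1/z) ≤ z^(-1/2)
    have h2 : (1 - Real.exp (-z))⁻¹ ≤ 1 + z⁻¹ := by
      have h3 : Real.exp (-z) ≤ 1 / (1 + z) := by
        rw [Real.exp_neg, one_div]
        have := Real.add_one_le_exp z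
        exact inv_anti₀ (by linarith) (by linarith)
      have h4 : z / (1 + z) ≤ 1 - Real.exp (-z) := by
        have : z / (1 + z) = 1 - 1 / (1 + z) := by field_simp; ring
        linarith
      have h5 : 0 < z / (1 + z) := by positivity
      calc (1 - Real.exp (-z))⁻¹ ≤ (z / (1 + z))⁻¹ := inv_anti₀ h5 h4
        _ = 1 + z⁻¹ := by field_simp; ring
    have h6 : Real.log ((1 - Real.exp (-z))⁻¹) ≤ (Real.sqrt z)⁻¹ := by
      have h7 : 1 + z⁻¹ ≤ Real.exp ((Real.sqrt z)⁻¹) ^ 1 := by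
        have e : z⁻¹ = ((Real.sqrt z)⁻¹) ^ 2 := by
          rw [inv_pow, Real.sq_sqrt hz.le]
        have hu : 0 < (Real.sqrt z)⁻¹ := by positivity
        have hu1 : 1 ≤ (Real.sqrt z)⁻¹ := by
          rw [one_le_inv₀ hs]
          exact (Real.sqrt_le_sqrt h1).trans (by simp)
        set u := (Real.sqrt z)⁻¹ with hu'
        have hq := Real.quadratic_le_exp_of_nonneg hu.le
        have hc : u ^ 3 / 6 + u ^ 2 / 2 + u + 1 ≤ Real.exp u := by
          have := Real.sum_le_exp_of_nonneg hu.le 4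
          simp only [Finset.sum_range_succ, Finset.sum_range_zero, Nat.factorial] at this
          norm_num at this
          linarith
        rw [e, pow_one]
        nlinarith [hc, mul_pos hu hu, mul_nonneg hu.le (sq_nonneg (u - 3/2))]
      calc Real.log ((1 - Real.exp (-z))⁻¹) ≤ Real.log (1 + z⁻¹) :=
            Real.log_le_log (by positivity) h2
        _ ≤ Real.log (Real.exp ((Real.sqrt z)⁻¹) ^ 1) := Real.log_le_log (by positivity) h7
        _ = (Real.sqrt z)⁻¹ := by rw [pow_one, Real.log_exp]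
    have h8 : (1 + z) ^ (r + 1) ≤ 2 ^ (r + 1) := pow_le_pow_left₀ (by positivity) (by linarith) _
    calc Real.log ((1 - Real.exp (-z))⁻¹) * (Real.sqrt z * (1 + z) ^ (r + 1))
        ≤ (Real.sqrt z)⁻¹ * (Real.sqrt z * (1 + z) ^ (r + 1)) :=
          mul_le_mul_of_nonneg_right h6 hden.le
      _ = (1 + z) ^ (r + 1) := by field_simp
      _ ≤ 2 ^ (r + 1) := h8
      _ ≤ 2 ^ (r + 2) * (r + 2).factorial := by
          rw [pow_succ 2 (r + 1)]
          nlinarith [pow_pos (by norm_num : (0 : ℝ) < 2) (r + 1)]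
  · -- large z
    have h2 : Real.log ((1 - Real.exp (-z))⁻¹) ≤ Real.exp (-z) / (1 - Real.exp (-z)) := by
      have := Real.log_le_log (by positivity) (inv_one_sub_le_exp hez)
      rwa [Real.log_exp] at this
    have h3 : Real.exp (-z) ≤ 1 / 2 := by
      have : 2 ≤ Real.exp z := by
        have := Real.add_one_le_exp z
        linarith
      rw [Real.exp_neg, one_div]
      exact inv_anti₀ (by norm_num) this
    have h4 : Real.exp (-z) / (1 - Real.exp (-z)) ≤ 2 * Real.exp (-z) := by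
      rw [div_le_iff₀ h1e]
      nlinarith [Real.exp_pos (-z)]
    have h5 : z ^ (r + 2) * Real.exp (-z) ≤ (r + 2).factorial := by
      have := Real.pow_div_factorial_le_exp z hz.le (r + 2)
      rw [div_le_iff₀ (by positivity)] at this
      rw [Real.exp_neg]
      rw [mul_inv_le_iff₀ (Real.exp_pos z)]
      linarith
    have h6 : Real.sqrt z ≤ z := by
      rw [Real.sqrt_le_left hz.le]
      nlinarith
    have h7 : (1 + z) ^ (r + 1) ≤ (2 * z) ^ (r + 1) := pow_le_pow_left₀ (by positivity) (by linarith) _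
    calc Real.log ((1 - Real.exp (-z))⁻¹) * (Real.sqrt z * (1 + z) ^ (r + 1))
        ≤ (2 * Real.exp (-z)) * (z * (2 * z) ^ (r + 1)) := by
          refine mul_le_mul (h2.trans h4) (mul_le_mul h6 h7 (by positivity) hz.le) (by positivity) (by positivity)
      _ = 2 ^ (r + 2) * (z ^ (r + 2) * Real.exp (-z)) := by
          rw [mul_pow]; ring
      _ ≤ 2 ^ (r + 2) * (r + 2).factorial := mul_le_mul_of_nonneg_left h5 (by positivity)

/-- telescoping bound -/
lemma tele {s : ℝ} (hs : 0 < s) (n : ℕ) :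
    (Real.sqrt (s * (n + 1)) * (1 + s * (n + 1)))⁻¹ ≤
      4 / s * (Real.sqrt (s * (n + 1)) / (1 + Real.sqrt (s * (n + 1))) -
        Real.sqrt (s * n) / (1 + Real.sqrt (s * n))) := by
  set α := Real.sqrt (s * (n + 1)) with hα
  set β := Real.sqrt (s * n) with hβ
  have hn : (0 : ℝ) ≤ n := Nat.cast_nonneg n
  have hα2 : α ^ 2 = s * (n + 1) := Real.sq_sqrt (by positivity)
  have hβ2 : β ^ 2 = s * n := Real.sq_sqrt (by positivity)
  have hα0 : 0 < α := Real.sqrt_pos.2 (by positivity)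
  have hβ0 : 0 ≤ β := Real.sqrt_nonneg _
  have hβα : β ≤ α := Real.sqrt_le_sqrt (by nlinarith)
  have hs' : s = α ^ 2 - β ^ 2 := by rw [hα2, hβ2]; ring
  have e : α / (1 + α) - β / (1 + β) = (α - β) / ((1 + α) * (1 + β)) := by
    field_simp; ring
  rw [← hα2, e]
  have hlt : β < α := by nlinarith
  have hsplit : s = (α - β) * (α + β) := by rw [hs']; ring
  rw [hsplit]
  have h1 : 0 < α - β := by linarith
  have h2 : 4 / ((α - β) * (α + β)) * ((α - β) / ((1 + α) * (1 + β))) =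
      4 / ((α + β) * ((1 + α) * (1 + β))) := by
    field_simp
  rw [h2, inv_eq_one_div, div_le_div_iff₀ (by positivity) (by positivity)]
  have h3 : (α + β) * ((1 + α) * (1 + β)) ≤ (2 * α) * ((1 + α) * (1 + α)) := by
    refine mul_le_mul (by linarith) ?_ (by positivity) (by positivity)
    exact mul_le_mul_of_nonneg_left (by linarith) (by positivity)
  nlinarith [sq_nonneg (1 - α), mul_pos hα0 hα0]

lemma sum_tele {s : ℝ} (hs : 0 < s) (K : ℕ) :
    ∑ n ∈ Finset.range K, (Real.sqrt (s * (n + 1)) * (1 + s * (n + 1)))⁻¹ ≤ 4 / s := by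
  have h1 : ∑ n ∈ Finset.range K, (Real.sqrt (s * (n + 1)) * (1 + s * (n + 1)))⁻¹ ≤
      ∑ n ∈ Finset.range K, 4 / s * (Real.sqrt (s * ((n + 1 : ℕ) : ℝ)) / (1 + Real.sqrt (s * ((n + 1 : ℕ) : ℝ))) -
        Real.sqrt (s * n) / (1 + Real.sqrt (s * n))) := by
    refine Finset.sum_le_sum fun n _ => ?_
    have := tele hs n
    push_cast
    exact this
  refine h1.trans ?_
  rw [← Finset.mul_sum, Finset.sum_range_sub (fun n : ℕ => Real.sqrt (s * (n : ℝ)) / (1 + Real.sqrt (s * (n : ℝ))))]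
  have h2 : Real.sqrt (s * (K : ℝ)) / (1 + Real.sqrt (s * (K : ℝ))) ≤ 1 := by
    have := Real.sqrt_nonneg (s * (K : ℝ))
    rw [div_le_one (by positivity)]
    linarith
  have h4 : 0 ≤ 4 / s := by positivity
  calc 4 / s * (Real.sqrt (s * (K : ℝ)) / (1 + Real.sqrt (s * (K : ℝ))) -
        Real.sqrt (s * ((0 : ℕ) : ℝ)) / (1 + Real.sqrt (s * ((0 : ℕ) : ℝ))))
      ≤ 4 / s * 1 := mul_le_mul_of_nonneg_left (by simpa using h2) h4
    _ = 4 / s := mul_one _

/-- number of monomials for a family of polynomial growth -/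
theorem count_poly {ι : Type} (w : ι → ℕ) (hw : ∀ i, 1 ≤ w i) {C : ℝ} (hC : 0 ≤ C) (r : ℕ)
    (hfin : ∀ n, {i | w i = n}.Finite) (hc : ∀ n, ({i | w i = n}.ncard : ℝ) ≤ C * (n : ℝ) ^ r)
    {s : ℝ} (hs : 0 < s) (K : ℕ) :
    {f : ι →₀ ℕ | wt w f ≤ K}.Finite ∧
    ({f : ι →₀ ℕ | wt w f ≤ K}.ncard : ℝ) ≤
      Real.exp (s * K + 4 * C * ((2 : ℝ) ^ (r + 2) * (r + 2).factorial) / s ^ (r + 1)) := by
  have hq0 : 0 < Real.exp (-s) := Real.exp_pos _
  have hq1 : Real.exp (-s) < 1 := by rw [Real.exp_lt_one_iff]; linarith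
  obtain ⟨h1, h2⟩ := count_aux w hw K (finite_le_of_fin w hfin K) (Real.exp (-s)) hq0 hq1
  refine ⟨h1, h2.trans ?_⟩
  rw [Real.exp_add]
  have e1 : (Real.exp (-s))⁻¹ ^ K = Real.exp (s * K) := by
    rw [← Real.exp_neg, neg_neg, ← Real.exp_nat_mul, mul_comm]
  rw [e1]
  refine mul_le_mul_of_nonneg_left ?_ (Real.exp_pos _).le
  set M : ℝ := (2 : ℝ) ^ (r + 2) * (r + 2).factorial with hM
  have hM0 : 0 ≤ M := by positivity
  refine (prod_le_exp_sum w hw hfin K (Real.exp (-s)) hq0 hq1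
    (fun n => M / (Real.sqrt (s * n) * (1 + s * n) ^ (r + 1))) ?_).trans ?_
  · intro n hn
    have hn' : (0 : ℝ) < n := by exact_mod_cast hn
    have hz : 0 < s * n := by positivity
    have h3 := log_bound r hz
    have e2 : Real.exp (-s) ^ n = Real.exp (-(s * n)) := by
      rw [← Real.exp_nat_mul]; congr 1; ring
    rw [e2]
    have h4 : 0 < (1 - Real.exp (-(s * n)))⁻¹ := by
      have : Real.exp (-(s * n)) < 1 := by rw [Real.exp_lt_one_iff]; linarith
      have : 0 < 1 - Real.exp (-(s * n)) := by linarith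
      positivity
    rw [← Real.exp_log h4]
    exact Real.exp_le_exp.2 h3
  · refine Real.exp_le_exp.2 ?_
    have h5 : ∑ n ∈ Finset.Icc 1 K, ({i | w i = n}.ncard : ℝ) *
          (M / (Real.sqrt (s * n) * (1 + s * n) ^ (r + 1))) ≤
        ∑ n ∈ Finset.Icc 1 K, (C * M / s ^ r) * (Real.sqrt (s * n) * (1 + s * n))⁻¹ := by
      refine Finset.sum_le_sum fun n hn => ?_
      have hn1 : 1 ≤ n := (Finset.mem_Icc.1 hn).1
      have hn' : (0 : ℝ) < n := by exact_mod_cast hn1
      have hz : 0 < s * n := by positivity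
      have hsq : 0 < Real.sqrt (s * n) := Real.sqrt_pos.2 hz
      calc ({i | w i = n}.ncard : ℝ) * (M / (Real.sqrt (s * n) * (1 + s * n) ^ (r + 1)))
          ≤ (C * (n : ℝ) ^ r) * (M / (Real.sqrt (s * n) * (1 + s * n) ^ (r + 1))) :=
            mul_le_mul_of_nonneg_right (hc n) (by positivity)
        _ = (C * M / s ^ r) * (Real.sqrt (s * n) * (1 + s * n))⁻¹ * ((s * n) ^ r / (1 + s * n) ^ r) := by
            rw [pow_succ, mul_pow]; field_simp
        _ ≤ (C * M / s ^ r) * (Real.sqrt (s * n) * (1 + s * n))⁻¹ * 1 := by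
            refine mul_le_mul_of_nonneg_left ?_ (by positivity)
            rw [div_le_one (by positivity)]
            exact pow_le_pow_left₀ hz.le (by linarith) r
        _ = _ := mul_one _
    refine h5.trans ?_
    rw [← Finset.mul_sum]
    have h6 : ∑ n ∈ Finset.Icc 1 K, (Real.sqrt (s * n) * (1 + s * n))⁻¹ =
        ∑ n ∈ Finset.range K, (Real.sqrt (s * (n + 1)) * (1 + s * (n + 1)))⁻¹ := by
      have e7 := Finset.sum_Ico_add' (fun n : ℕ => (Real.sqrt (s * (n : ℝ)) * (1 + s * (n : ℝ)))⁻¹) 0 K 1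
      have e8 : Finset.Icc 1 K = Finset.Ico (0 + 1) (K + 1) := by
        ext n
        simp only [Finset.mem_Icc, Finset.mem_Ico]
        omega
      rw [Finset.range_eq_Ico, e8, ← e7]
      refine Finset.sum_congr rfl fun n _ => ?_
      push_cast
      rfl
    rw [h6]
    calc C * M / s ^ r * ∑ n ∈ Finset.range K, (Real.sqrt (s * (n + 1)) * (1 + s * (n + 1)))⁻¹
        ≤ C * M / s ^ r * (4 / s) := mul_le_mul_of_nonneg_left (sum_tele hs K) (by positivity)
      _ = 4 * C * M / s ^ (r + 1) := by rw [pow_succ]; field_simp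

/-- For every `b > 1` there is `c > 0` such that the number of monomials of weight at most
`c k^((r+2)/(r+1))` is at most `b ^ k`. -/
theorem count_poly' {ι : Type} (w : ι → ℕ) (hw : ∀ i, 1 ≤ w i) {C : ℝ} (hC : 0 ≤ C) (r : ℕ)
    (hfin : ∀ n, {i | w i = n}.Finite) (hc : ∀ n, ({i | w i = n}.ncard : ℝ) ≤ C * (n : ℝ) ^ r)
    {b : ℝ} (hb : 1 < b) :
    ∃ c : ℝ, 0 < c ∧ ∀ k K : ℕ, 1 ≤ k → (K : ℝ) ^ (r + 1) ≤ c * (k : ℝ) ^ (r + 2) →
      {f : ι →₀ ℕ | wt w f ≤ K}.Finite ∧
      ({f : ι →₀ ℕ | wt w f ≤ K}.ncard : ℝ) ≤ b ^ k := by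
  set M : ℝ := 4 * C * ((2 : ℝ) ^ (r + 2) * (r + 2).factorial) with hM
  have hM0 : 0 ≤ M := by positivity
  set ε := Real.log b with hε
  have hε0 : 0 < ε := Real.log_pos hb
  -- s = σ / k^(1/(r+1)); σ with M/σ^(r+1) ≤ ε/2
  set τ : ℝ := 2 * M / ε + 1 with hτ
  have hτ1 : 1 ≤ τ := by
    have : 0 ≤ 2 * M / ε := by positivity
    linarith
  have hτ0 : 0 < τ := by linarith
  have hMτ : M / τ ≤ ε / 2 := by
    rw [div_le_iff₀ hτ0, hτ]
    have : ε / 2 * (2 * M / ε + 1) = M + ε / 2 := by field_simp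
    linarith
  refine ⟨(ε / 2) ^ (r + 1) / τ, by positivity, ?_⟩
  intro k K hk hK
  have hk0 : (0 : ℝ) < k := by exact_mod_cast hk
  -- s^(r+1) = τ / k
  set s : ℝ := (τ / k) ^ (((r + 1 : ℕ) : ℝ)⁻¹) with hs
  have hs0 : 0 < s := Real.rpow_pos_of_pos (by positivity) _
  have hspow : s ^ (r + 1) = τ / k := Real.rpow_inv_natCast_pow (by positivity) (by omega)
  obtain ⟨h1, h2⟩ := count_poly w hw hC r hfin hc hs0 K
  refine ⟨h1, h2.trans ?_⟩
  have e : b ^ k = Real.exp (ε * k) := by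
    rw [mul_comm, Real.exp_nat_mul, hε, Real.exp_log (by linarith)]
  rw [e]
  refine Real.exp_le_exp.2 ?_
  have h3 : M / s ^ (r + 1) ≤ ε / 2 * k := by
    rw [hspow]
    calc M / (τ / k) = M / τ * k := by field_simp
      _ ≤ ε / 2 * k := mul_le_mul_of_nonneg_right hMτ hk0.le
  have h4 : s * K ≤ ε / 2 * k := by
    refine le_of_pow_le_pow_left₀ (n := r + 1) (by omega) (by positivity) ?_
    rw [mul_pow, hspow, mul_pow]
    calc τ / k * (K : ℝ) ^ (r + 1) ≤ τ / k * ((ε / 2) ^ (r + 1) / τ * (k : ℝ) ^ (r + 2)) :=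
          mul_le_mul_of_nonneg_left hK (by positivity)
      _ = (ε / 2) ^ (r + 1) * (k : ℝ) ^ (r + 1) := by
          rw [pow_succ (k : ℝ) (r + 1)]; field_simp
  linarith

end MPe54452
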