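import Pool.Agent.Lib.MP_e54452_nt.TH.Growth3
import Pool.Agent.Lib.MP_e54452_nt.DF.N8
import Pool.Agent.Lib.MP_e54452_nt.VV.D4
import Pool.Agent.Lib.MP_e54452_nt.TF.Poly

/-!
# The spaces of multiple zeta values and polynomials in thin families of real numbers
-/

set_option autoImplicit false

namespace MPe54452

open Filter Topology Module

/-- codimension of `Z k ∩ Pol x w K` in `Z k` -/
noncomputable def codim {ι : Type} (x : ι → ℝ) (w : ι → ℕ) (k K : ℕ) : ℝ :=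
  (finrank ℚ (Z k) : ℝ) - (finrank ℚ (Z k ⊓ Pol x w K : Submodule ℚ ℝ) : ℝ)

theorem codim_ge {ι : Type} (x : ι → ℝ) (w : ι → ℕ) (k K : ℕ)
    (hfin : {f : ι →₀ ℕ | wt w f ≤ K}.Finite) :
    (finrank ℚ (Z k) : ℝ) - ({f : ι →₀ ℕ | wt w f ≤ K}.ncard : ℝ) ≤ codim x w k K := by
  obtain ⟨h1, h2⟩ := finrank_Pol_le x w K hfin
  have h3 : finrank ℚ (Z k ⊓ Pol x w K : Submodule ℚ ℝ) ≤ finrank ℚ (Pol x w K) :=
    Submodule.finrank_mono inf_le_right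
  have h4 : (finrank ℚ (Z k ⊓ Pol x w K : Submodule ℚ ℝ) : ℝ) ≤
      ({f : ι →₀ ℕ | wt w f ≤ K}.ncard : ℝ) := by exact_mod_cast h3.trans h2
  unfold codim
  linarith

theorem codim_ge' {ι : Type} (x : ι → ℝ) (w : ι → ℕ) (k K : ℕ) (hk : 2 ≤ k)
    (hfin : {f : ι →₀ ℕ | wt w f ≤ K}.Finite) :
    (2 : ℝ) ^ ((k : ℝ) / 3) / (16 * (k : ℝ) ^ ((5 : ℝ) / 3)) -
      ({f : ι →₀ ℕ | wt w f ≤ K}.ncard : ℝ) ≤ codim x w k K := by
  have h := MZG.growth3_Z k hk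
  have hk1 : (0 : ℝ) < (k : ℝ) := by
    have : 0 < k := by omega
    exact_mod_cast this
  have hk0 : (0 : ℝ) < 16 * (k : ℝ) ^ ((5 : ℝ) / 3) := by positivity
  have h2 : (2 : ℝ) ^ ((k : ℝ) / 3) / (16 * (k : ℝ) ^ ((5 : ℝ) / 3)) ≤ (finrank ℚ (Z k) : ℝ) := by
    rw [div_le_iff₀ hk0]
    linarith
  have := codim_ge x w k K hfin
  linarith

lemma not_le_of_codim_pos {ι : Type} (x : ι → ℝ) (w : ι → ℕ) (k K : ℕ) (h : 0 < codim x w k K) :
    ¬ Z k ≤ Pol x w K := by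
  intro hle
  unfold codim at h
  rw [inf_eq_left.2 hle] at h
  simp at h

/-- `2^(1/3)` -/
noncomputable def bb : ℝ := (2 : ℝ) ^ ((1 : ℝ) / 3)

lemma bb_pos : 0 < bb := Real.rpow_pos_of_pos (by norm_num) _

lemma bb_one : 1 < bb := Real.one_lt_rpow (by norm_num) (by norm_num)

lemma bb_cube : bb ^ 3 = 2 := by
  unfold bb
  rw [← Real.rpow_natCast, ← Real.rpow_mul (by norm_num)]
  norm_num

lemma bb_pow (k : ℕ) : bb ^ k = (2 : ℝ) ^ ((k : ℝ) / 3) := by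
  unfold bb
  rw [← Real.rpow_natCast, ← Real.rpow_mul (by norm_num)]
  congr 1
  ring

/-- the exponential growth beats `y ^ k + A b ^ k` -/
lemma eventually_growth {A b y : ℝ} (hA : 0 ≤ A) (hb0 : 0 ≤ b) (hb : b < bb) (hy0 : 0 ≤ y)
    (hy : y < bb) :
    ∀ᶠ k : ℕ in atTop, 2 ≤ k ∧ y ^ k + A * b ^ k < (finrank ℚ (Z k) : ℝ) := by
  set z := max b y with hz
  have hz0 : 0 ≤ z := hb0.trans (le_max_left _ _)
  have hzb : z < bb := max_lt hb hy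
  have hr0 : 0 ≤ z / bb := div_nonneg hz0 bb_pos.le
  have hr1 : z / bb < 1 := (div_lt_one bb_pos).2 hzb
  have ht := tendsto_pow_const_mul_const_pow_of_abs_lt_one 2 (r := z / bb) (by rw [abs_of_nonneg hr0]; exact hr1)
  have hpos : 0 < 1 / (16 * (1 + A)) := by positivity
  have hev := (ht.eventually (gt_mem_nhds hpos)).and (eventually_ge_atTop 2)
  filter_upwards [hev] with k hk
  obtain ⟨h1, h2⟩ := hk
  refine ⟨h2, ?_⟩
  have hg := MZG.growth3_Z' k h2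
  rw [← bb_pow] at hg
  have hk0 : (0 : ℝ) < (k : ℝ) := by
    have : 0 < k := by omega
    exact_mod_cast this
  have hbk : 0 < bb ^ k := pow_pos bb_pos k
  have h3 : (k : ℝ) ^ 2 * (z ^ k / bb ^ k) < 1 / (16 * (1 + A)) := by
    rw [← div_pow]; exact h1
  have h4 : (k : ℝ) ^ 2 * z ^ k * (16 * (1 + A)) < bb ^ k := by
    rw [lt_div_iff₀ (by positivity)] at h3
    have h5 : (k : ℝ) ^ 2 * (z ^ k / bb ^ k) * (16 * (1 + A)) = ((k : ℝ) ^ 2 * z ^ k * (16 * (1 + A))) / bb ^ k := by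
      ring
    rw [h5, div_lt_one hbk] at h3
    exact h3
  have h6 : y ^ k + A * b ^ k ≤ (1 + A) * z ^ k := by
    have h7 : y ^ k ≤ z ^ k := pow_le_pow_left₀ hy0 (le_max_right _ _) k
    have h8 : b ^ k ≤ z ^ k := pow_le_pow_left₀ hb0 (le_max_left _ _) k
    nlinarith [mul_le_mul_of_nonneg_left h8 hA]
  have h9 : 16 * (k : ℝ) ^ 2 * ((1 + A) * z ^ k) < 16 * (k : ℝ) ^ 2 * finrank ℚ (Z k) := by
    calc 16 * (k : ℝ) ^ 2 * ((1 + A) * z ^ k) = (k : ℝ) ^ 2 * z ^ k * (16 * (1 + A)) := by ring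
      _ < bb ^ k := h4
      _ ≤ _ := hg
  have h10 := lt_of_mul_lt_mul_left h9 (by positivity)
  linarith

/-- families of exponential growth -/
theorem codim_exp {ι : Type} (x : ι → ℝ) (w : ι → ℕ) (hw : ∀ i, 1 ≤ w i) {C ρ τ : ℝ}
    (hρ : 1 ≤ ρ) (hτ : 0 < τ) (hρτ : ρ ^ τ < bb)
    (hfin : ∀ n, {i | w i = n}.Finite) (hc : ∀ n, ({i | w i = n}.ncard : ℝ) ≤ C * ρ ^ n)
    {y : ℝ} (hy0 : 0 ≤ y) (hy : y < bb) :
    ∀ᶠ k : ℕ in atTop, ∀ K : ℕ, (K : ℝ) ≤ τ * k → y ^ k < codim x w k K := by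
  have hC : 0 ≤ C := by
    have := hc 0
    rw [pow_zero, mul_one] at this
    exact (Nat.cast_nonneg _).trans this
  have hρ0 : 0 < ρ := by linarith
  -- choose q
  set a : ℝ := bb ^ (-(1 / τ)) with ha
  have ha0 : 0 < a := Real.rpow_pos_of_pos bb_pos _
  have haρ : a < ρ⁻¹ := by
    have h1 : ρ < bb ^ (1 / τ) := by
      have := Real.rpow_lt_rpow (by positivity) hρτ (by positivity : 0 < 1 / τ)
      rwa [← Real.rpow_mul hρ0.le, mul_one_div_cancel hτ.ne', Real.rpow_one] at this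
    rw [ha, Real.rpow_neg bb_pos.le]
    exact inv_strictAnti₀ hρ0 h1
  obtain ⟨q, hq1, hq2⟩ := exists_between haρ
  have hq0 : 0 < q := ha0.trans hq1
  have hq3 : ρ * q < 1 := by
    calc ρ * q < ρ * ρ⁻¹ := mul_lt_mul_of_pos_left hq2 hρ0
      _ = 1 := mul_inv_cancel₀ hρ0.ne'
  have hq4 : q < 1 := hq2.trans_le (inv_le_one_of_one_le₀ hρ)
  set b : ℝ := (q⁻¹) ^ τ with hb
  have hb0 : 0 ≤ b := Real.rpow_nonneg (by positivity) _
  have hbb : b < bb := by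
    have h1 : q⁻¹ < bb ^ (1 / τ) := by
      have : q⁻¹ < a⁻¹ := inv_strictAnti₀ ha0 hq1
      rwa [ha, ← Real.rpow_neg bb_pos.le, neg_neg] at this
    have h2 := Real.rpow_lt_rpow (by positivity) h1 hτ
    rwa [← Real.rpow_mul bb_pos.le, one_div_mul_cancel hτ.ne', Real.rpow_one] at h2
  set A : ℝ := Real.exp (C / (1 - q) / (1 - ρ * q)) with hA
  filter_upwards [eventually_growth (Real.exp_pos _).le hb0 hbb hy0 hy (A := A)] with k hk K hK
  obtain ⟨hk2, hk⟩ := hk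
  obtain ⟨h1, h2⟩ := count_exp w hw hC hρ0.le hfin hc hq0 hq4 hq3 K
  have h3 := codim_ge x w k K h1
  have h4 : (q⁻¹) ^ K ≤ b ^ k := by
    rw [hb, ← Real.rpow_natCast, ← Real.rpow_natCast, ← Real.rpow_mul (by positivity)]
    exact Real.rpow_le_rpow_of_exponent_le (by rw [one_le_inv₀ hq0]; exact hq4.le) hK
  have h5 : (q⁻¹) ^ K * A ≤ b ^ k * A := mul_le_mul_of_nonneg_right h4 (Real.exp_pos _).le
  linarith

/-- families of polynomial growth -/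
theorem codim_poly {ι : Type} (x : ι → ℝ) (w : ι → ℕ) (hw : ∀ i, 1 ≤ w i) {C : ℝ} (r : ℕ)
    (hC : 0 ≤ C) (hfin : ∀ n, {i | w i = n}.Finite)
    (hc : ∀ n, ({i | w i = n}.ncard : ℝ) ≤ C * (n : ℝ) ^ r) :
    ∃ c : ℝ, 0 < c ∧ ∀ y : ℝ, 0 ≤ y → y < bb →
      ∀ᶠ k : ℕ in atTop, ∀ K : ℕ, (K : ℝ) ^ (r + 1) ≤ c * (k : ℝ) ^ (r + 2) →
        y ^ k < codim x w k K := by
  have hb : (6 / 5 : ℝ) < bb := by
    refine lt_of_pow_lt_pow_left₀ 3 bb_pos.le ?_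
    rw [bb_cube]; norm_num
  obtain ⟨c, hc0, h⟩ := count_poly' w hw hC r hfin hc (b := 6 / 5) (by norm_num)
  refine ⟨c, hc0, fun y hy0 hy => ?_⟩
  filter_upwards [eventually_growth (A := 1) zero_le_one (by norm_num) hb hy0 hy] with k hk K hK
  obtain ⟨hk2, hk⟩ := hk
  obtain ⟨h1, h2⟩ := h k K (by omega) hK
  have h3 := codim_ge x w k K h1
  linarith

/-- finitely many numbers, polynomials of exponentially large degree -/
theorem codim_fin (t : ℕ) (x : Fin t → ℝ) {b y : ℝ} (hb0 : 0 ≤ b) (hb : b < bb) (hy0 : 0 ≤ y)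
    (hy : y < bb) :
    ∀ᶠ k : ℕ in atTop, ∀ K : ℕ, ((K : ℝ) + 1) ^ t ≤ b ^ k →
      y ^ k < codim x (fun _ => 1) k K := by
  filter_upwards [eventually_growth (A := 1) zero_le_one hb0 hb hy0 hy] with k hk K hK
  obtain ⟨hk2, hk⟩ := hk
  have hmaps : ∀ f ∈ {f : Fin t →₀ ℕ | wt (fun _ => 1) f ≤ K}, (f : Fin t → ℕ) ∈
      ((Fintype.piFinset fun _ : Fin t => Finset.range (K + 1) : Finset (Fin t → ℕ)) : Set (Fin t → ℕ)) := by
    intro f hf
    rw [Finset.mem_coe, Fintype.mem_piFinset]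
    intro i
    have h1 := le_wt (fun _ : Fin t => 1) f i
    have h2 : wt (fun _ => 1) f ≤ K := hf
    rw [Finset.mem_range]
    omega
  have hinj : Set.InjOn (fun f : Fin t →₀ ℕ => (f : Fin t → ℕ)) {f : Fin t →₀ ℕ | wt (fun _ => 1) f ≤ K} :=
    fun f _ g _ h => DFunLike.coe_injective h
  have hfin : {f : Fin t →₀ ℕ | wt (fun _ => 1) f ≤ K}.Finite :=
    Set.Finite.of_injOn hmaps hinj (Finset.finite_toSet _)
  have hcard : {f : Fin t →₀ ℕ | wt (fun _ => 1) f ≤ K}.ncard ≤ (K + 1) ^ t := by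
    have h1 := Set.ncard_le_ncard_of_injOn _ hmaps hinj (Finset.finite_toSet _)
    rw [Set.ncard_coe_finset, Fintype.card_piFinset] at h1
    simpa using h1
  have h3 := codim_ge x (fun _ => 1) k K hfin
  have h4 : ({f : Fin t →₀ ℕ | wt (fun _ => 1) f ≤ K}.ncard : ℝ) ≤ ((K : ℝ) + 1) ^ t := by
    exact_mod_cast hcard
  linarith

end MPe54452
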