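import Mathlib

/-!
# Counting monomials of bounded weight
-/

set_option autoImplicit false

namespace MPe54452

/-- The weight of a multi-index `f` when the variable `i` has weight `w i`. -/
def wt {ι : Type} (w : ι → ℕ) (f : ι →₀ ℕ) : ℕ := f.sum (fun i n => n * w i)

/-- The monomial `∏ x_i ^ (f i)`. -/
noncomputable def mono {ι : Type} (x : ι → ℝ) (f : ι →₀ ℕ) : ℝ := f.prod (fun i n => x i ^ n)

/-- The polynomials with rational coefficients of weight at most `K` in the real numbers `x i`,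
`x i` having weight `w i`: the rational span of the monomials of weight at most `K`. -/
noncomputable def Pol {ι : Type} (x : ι → ℝ) (w : ι → ℕ) (K : ℕ) : Submodule ℚ ℝ :=
  Submodule.span ℚ (mono x '' {f : ι →₀ ℕ | wt w f ≤ K})

variable {ι : Type}

lemma le_wt (w : ι → ℕ) (f : ι →₀ ℕ) (i : ι) : f i * w i ≤ wt w f := by
  classical
  by_cases h : i ∈ f.support
  · exact Finset.single_le_sum (f := fun i => f i * w i) (fun _ _ => Nat.zero_le _) h
  · have : f i = 0 := by simpa using h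
    simp [this]

lemma eq_zero_of_wt (w : ι → ℕ) {K : ℕ} (f : ι →₀ ℕ) (hf : wt w f ≤ K) {i : ι} (hi : ¬ w i ≤ K) :
    f i = 0 := by
  by_contra h
  have h1 : 1 ≤ f i := Nat.one_le_iff_ne_zero.2 h
  have h2 := le_wt w f i
  have : w i ≤ f i * w i := Nat.le_mul_of_pos_left _ h1
  omega

theorem count_aux (w : ι → ℕ) (hw : ∀ i, 1 ≤ w i) (K : ℕ) (hfin : {i | w i ≤ K}.Finite)
    (q : ℝ) (hq0 : 0 < q) (hq1 : q < 1) :
    {f : ι →₀ ℕ | wt w f ≤ K}.Finite ∧
    ({f : ι →₀ ℕ | wt w f ≤ K}.ncard : ℝ) ≤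
      (q⁻¹) ^ K * ∏ i ∈ hfin.toFinset, (1 - q ^ (w i))⁻¹ := by
  classical
  letI : Fintype {i // w i ≤ K} := hfin.fintype
  let φ : (ι →₀ ℕ) → ({i // w i ≤ K} → ℕ) := fun f i => f i.1
  let G : Finset ({i // w i ≤ K} → ℕ) :=
    (Fintype.piFinset fun _ => Finset.range (K + 1)).filter (fun g => ∑ i, g i * w i.1 ≤ K)
  have hmaps : ∀ f ∈ {f : ι →₀ ℕ | wt w f ≤ K}, φ f ∈ (G : Set ({i // w i ≤ K} → ℕ)) := by
    intro f hf
    have hf' : wt w f ≤ K := hf
    rw [Finset.mem_coe, Finset.mem_filter, Fintype.mem_piFinset]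
    constructor
    · intro i
      rw [Finset.mem_range]
      have h1 := le_wt w f i.1
      have h2 := hw i.1
      have h3 : f i.1 ≤ f i.1 * w i.1 := Nat.le_mul_of_pos_right _ h2
      show f i.1 < K + 1
      omega
    · have hsum : ∑ i : {i // w i ≤ K}, f i.1 * w i.1 = ∑ i ∈ hfin.toFinset, f i * w i := by
        symm
        refine Finset.sum_subtype _ ?_ _
        intro i; simp
      show ∑ i : {i // w i ≤ K}, f i.1 * w i.1 ≤ K
      rw [hsum]
      have hsub : f.support ⊆ hfin.toFinset := by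
        intro i hi
        simp only [Set.Finite.mem_toFinset, Set.mem_setOf_eq]
        by_contra hc
        exact (Finsupp.mem_support_iff.1 hi) (eq_zero_of_wt w f hf' hc)
      have : wt w f = ∑ i ∈ hfin.toFinset, f i * w i :=
        Finsupp.sum_of_support_subset f hsub _ (by simp)
      omega
  have hinj : Set.InjOn φ {f : ι →₀ ℕ | wt w f ≤ K} := by
    intro f hf g hg hfg
    ext i
    by_cases hi : w i ≤ K
    · exact congrFun hfg ⟨i, hi⟩
    · rw [eq_zero_of_wt w f hf hi, eq_zero_of_wt w g hg hi]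
  have hfinite : {f : ι →₀ ℕ | wt w f ≤ K}.Finite :=
    Set.Finite.of_injOn hmaps hinj G.finite_toSet
  refine ⟨hfinite, ?_⟩
  have hcard : {f : ι →₀ ℕ | wt w f ≤ K}.ncard ≤ G.card := by
    have := Set.ncard_le_ncard_of_injOn φ hmaps hinj G.finite_toSet
    rwa [Set.ncard_coe_finset] at this
  have h1 : (G.card : ℝ) ≤ ∑ g ∈ G, (q⁻¹) ^ K * ∏ i, (q ^ (w i.1)) ^ (g i) := by
    rw [Finset.card_eq_sum_ones, Nat.cast_sum]
    refine Finset.sum_le_sum fun g hg => ?_
    have hgK : ∑ i, g i * w i.1 ≤ K := (Finset.mem_filter.1 hg).2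
    have e : ∏ i, (q ^ (w i.1)) ^ (g i) = q ^ (∑ i, g i * w i.1) := by
      rw [← Finset.prod_pow_eq_pow_sum]
      refine Finset.prod_congr rfl fun i _ => ?_
      rw [← pow_mul, mul_comm]
    rw [e]
    have h2 : q ^ K ≤ q ^ (∑ i, g i * w i.1) := pow_le_pow_of_le_one hq0.le hq1.le hgK
    calc ((1 : ℕ) : ℝ) = (q⁻¹) ^ K * q ^ K := by
          rw [← mul_pow, inv_mul_cancel₀ hq0.ne', one_pow]; simp
      _ ≤ _ := mul_le_mul_of_nonneg_left h2 (by positivity)
  have h3 : ∑ g ∈ G, (q⁻¹) ^ K * ∏ i, (q ^ (w i.1)) ^ (g i) ≤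
      (q⁻¹) ^ K * ∑ g ∈ (Fintype.piFinset fun _ : {i // w i ≤ K} => Finset.range (K + 1)),
        ∏ i, (q ^ (w i.1)) ^ (g i) := by
    rw [← Finset.mul_sum]
    refine mul_le_mul_of_nonneg_left ?_ (by positivity)
    exact Finset.sum_le_sum_of_subset_of_nonneg (Finset.filter_subset _ _)
      (fun g _ _ => Finset.prod_nonneg fun i _ => by positivity)
  have h4 : ∑ g ∈ (Fintype.piFinset fun _ : {i // w i ≤ K} => Finset.range (K + 1)),
        ∏ i, (q ^ (w i.1)) ^ (g i) = ∏ i : {i // w i ≤ K}, ∑ j ∈ Finset.range (K + 1), (q ^ (w i.1)) ^ j := by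
    rw [Finset.prod_univ_sum]
  have h5 : ∏ i : {i // w i ≤ K}, ∑ j ∈ Finset.range (K + 1), (q ^ (w i.1)) ^ j ≤
      ∏ i : {i // w i ≤ K}, (1 - q ^ (w i.1))⁻¹ := by
    refine Finset.prod_le_prod (fun i _ => Finset.sum_nonneg fun j _ => by positivity) fun i _ => ?_
    have hlt : q ^ (w i.1) < 1 := pow_lt_one₀ hq0.le hq1 (by have := hw i.1; omega)
    have h0 : (0 : ℝ) ≤ q ^ (w i.1) := by positivity
    rw [geom_sum_eq hlt.ne]
    rw [← neg_div_neg_eq, neg_sub, neg_sub, inv_eq_one_div]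
    have : 0 < 1 - q ^ (w i.1) := by linarith
    refine div_le_div_of_nonneg_right ?_ this.le
    have : 0 ≤ (q ^ (w i.1)) ^ (K + 1) := by positivity
    linarith
  have h6 : ∏ i : {i // w i ≤ K}, (1 - q ^ (w i.1))⁻¹ = ∏ i ∈ hfin.toFinset, (1 - q ^ (w i))⁻¹ := by
    symm
    refine Finset.prod_subtype _ ?_ _
    intro i; simp
  calc ({f : ι →₀ ℕ | wt w f ≤ K}.ncard : ℝ) ≤ (G.card : ℝ) := by exact_mod_cast hcard
    _ ≤ _ := h1
    _ ≤ _ := h3
    _ ≤ _ := by
      rw [h4, ← h6]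
      exact mul_le_mul_of_nonneg_left h5 (by positivity)

theorem finrank_Pol_le (x : ι → ℝ) (w : ι → ℕ) (K : ℕ) (hfin : {f : ι →₀ ℕ | wt w f ≤ K}.Finite) :
    FiniteDimensional ℚ (Pol x w K) ∧
    Module.finrank ℚ (Pol x w K) ≤ {f : ι →₀ ℕ | wt w f ≤ K}.ncard := by
  classical
  have himg : (mono x '' {f : ι →₀ ℕ | wt w f ≤ K}).Finite := hfin.image _
  refine ⟨FiniteDimensional.span_of_finite ℚ himg, ?_⟩
  letI := himg.fintype
  have h1 := finrank_span_le_card (R := ℚ) (mono x '' {f : ι →₀ ℕ | wt w f ≤ K})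
  have h2 : (mono x '' {f : ι →₀ ℕ | wt w f ≤ K}).toFinset.card =
      (mono x '' {f : ι →₀ ℕ | wt w f ≤ K}).ncard := by
    rw [Set.ncard_eq_toFinset_card']
  rw [h2] at h1
  exact h1.trans (Set.ncard_image_le hfin)

end MPe54452
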