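import Pool.Agent.Lib.MP_e54452_nt.TF.Zeta

/-!
# Multiple zeta values of small depth do not generate
-/

set_option autoImplicit false

namespace MPe54452

open Filter Topology Module

/-- admissible nonempty exponent sequences of depth at most `R` -/
abbrev LowDepth (R : ℕ) : Type := {l : List ℕ // Adm l ∧ l ≠ [] ∧ l.length ≤ R}

/-- admissible nonempty exponent sequences of depth at most `R` or at most `weight / 17` -/
abbrev SmallDepth (R : ℕ) : Type :=
  {l : List ℕ // Adm l ∧ l ≠ [] ∧ (l.length ≤ R ∨ 17 * l.length ≤ l.sum)}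

lemma two_le_sum {l : List ℕ} (h : Adm l) (h0 : l ≠ []) : 2 ≤ l.sum := by
  cases l with
  | nil => exact absurd rfl h0
  | cons a l =>
    have := h.1
    simp only [List.sum_cons]
    omega

/-- counting in one weight -/
lemma count_subtype (p : List ℕ → Prop) (n ρ : ℕ)
    (hp : ∀ l, Adm l → l ≠ [] → p l → l.sum = n → l.length ≤ ρ) :
    {i : {l : List ℕ // Adm l ∧ l ≠ [] ∧ p l} | i.1.sum = n}.Finite ∧
    {i : {l : List ℕ // Adm l ∧ l ≠ [] ∧ p l} | i.1.sum = n}.ncard ≤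
      if 2 ≤ n then ∑ j ∈ Finset.range ρ, (n - 2).choose j else 0 := by
  by_cases hn : 2 ≤ n
  · rw [if_pos hn]
    obtain ⟨h1, h2⟩ := MZG.ncard_adm n ρ hn
    have hmaps : ∀ i ∈ {i : {l : List ℕ // Adm l ∧ l ≠ [] ∧ p l} | i.1.sum = n},
        i.1 ∈ {l : List ℕ | Adm l ∧ l.sum = n ∧ l.length ≤ ρ} :=
      fun i hi => ⟨i.2.1, hi, hp i.1 i.2.1 i.2.2.1 i.2.2.2 hi⟩
    have hinj : Set.InjOn (fun i : {l : List ℕ // Adm l ∧ l ≠ [] ∧ p l} => i.1)
        {i : {l : List ℕ // Adm l ∧ l ≠ [] ∧ p l} | i.1.sum = n} :=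
      fun i _ j _ h => Subtype.ext h
    refine ⟨Set.Finite.of_injOn hmaps hinj h1, ?_⟩
    rw [← h2]
    exact Set.ncard_le_ncard_of_injOn _ hmaps hinj h1
  · rw [if_neg hn]
    have e : {i : {l : List ℕ // Adm l ∧ l ≠ [] ∧ p l} | i.1.sum = n} = ∅ := by
      ext i
      simp only [Set.mem_ofPred_eq, Set.mem_empty_iff_false, iff_false]
      intro h
      have := two_le_sum i.2.1 i.2.2.1
      omega
    rw [e]
    exact ⟨Set.finite_empty, by simp⟩

lemma choose_sum_le (n R : ℕ) (hn : 2 ≤ n) :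
    ∑ j ∈ Finset.range (R + 1), (n - 2).choose j ≤ (R + 1) * n ^ R := by
  calc ∑ j ∈ Finset.range (R + 1), (n - 2).choose j ≤ ∑ j ∈ Finset.range (R + 1), n ^ R := by
        refine Finset.sum_le_sum fun j hj => ?_
        have hj' : j ≤ R := by
          have := Finset.mem_range.1 hj
          omega
        calc (n - 2).choose j ≤ (n - 2) ^ j := Nat.choose_le_pow _ _
          _ ≤ n ^ j := Nat.pow_le_pow_left (by omega) j
          _ ≤ n ^ R := Nat.pow_le_pow_right (by omega) hj'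
    _ = (R + 1) * n ^ R := by simp

/-- Multiple zeta values of depth at most `R + 1` -/
theorem codim_lowDepth (R : ℕ) :
    ∃ c : ℝ, 0 < c ∧ ∀ y : ℝ, 0 ≤ y → y < bb →
      ∀ᶠ k : ℕ in atTop, ∀ K : ℕ, (K : ℝ) ^ (R + 1) ≤ c * (k : ℝ) ^ (R + 2) →
        y ^ k < codim (fun l : LowDepth (R + 1) => mzv l.1) (fun l => l.1.sum) k K := by
  have hcount := fun n : ℕ => count_subtype (fun l => l.length ≤ R + 1) n (R + 1)
    (fun l _ _ h _ => h)
  refine codim_poly (fun l : LowDepth (R + 1) => mzv l.1) (fun l => l.1.sum)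
    (fun i => by have := two_le_sum i.2.1 i.2.2.1; omega) R (C := (R + 1 : ℕ)) (Nat.cast_nonneg _)
    (fun n => (hcount n).1) (fun n => ?_)
  have h := (hcount n).2
  by_cases hn : 2 ≤ n
  · rw [if_pos hn] at h
    have := h.trans (choose_sum_le n R hn)
    exact_mod_cast this
  · rw [if_neg hn] at h
    have h0 : {i : LowDepth (R + 1) | i.1.sum = n}.ncard = 0 := Nat.le_zero.1 h
    rw [h0]
    push_cast
    positivity

lemma rho_bound (n : ℕ) :
    (16 : ℝ) ^ (n / 17) * (17 / 16 : ℝ) ^ n ≤ ((2 : ℝ) ^ ((313 : ℝ) / 969)) ^ n := by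
  have e1 : (16 : ℝ) ^ (n / 17) ≤ (2 : ℝ) ^ ((4 / 17 : ℝ) * n) := by
    have h1 : (16 : ℝ) ^ (n / 17) = (2 : ℝ) ^ (((4 * (n / 17) : ℕ)) : ℝ) := by
      rw [Real.rpow_natCast, pow_mul]
      norm_num
    rw [h1]
    refine Real.rpow_le_rpow_of_exponent_le (by norm_num) ?_
    have h2 : ((n / 17 : ℕ) : ℝ) ≤ (n : ℝ) / 17 := by exact_mod_cast Nat.cast_div_le (α := ℝ) (m := n) (n := 17)
    push_cast
    linarith
  have e2 : (17 / 16 : ℝ) ^ n ≤ (2 : ℝ) ^ ((5 / 57 : ℝ) * n) := by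
    have h1 : (17 / 16 : ℝ) ≤ (2 : ℝ) ^ (5 / 57 : ℝ) := by
      refine le_of_pow_le_pow_left₀ (n := 57) (by norm_num) (by positivity) ?_
      rw [← Real.rpow_natCast ((2 : ℝ) ^ (5 / 57 : ℝ)), ← Real.rpow_mul (by norm_num)]
      norm_num
    calc (17 / 16 : ℝ) ^ n ≤ ((2 : ℝ) ^ (5 / 57 : ℝ)) ^ n := pow_le_pow_left₀ (by norm_num) h1 n
      _ = (2 : ℝ) ^ ((5 / 57 : ℝ) * n) := by
          rw [← Real.rpow_natCast, ← Real.rpow_mul (by norm_num)]
  calc (16 : ℝ) ^ (n / 17) * (17 / 16 : ℝ) ^ n ≤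
        (2 : ℝ) ^ ((4 / 17 : ℝ) * n) * (2 : ℝ) ^ ((5 / 57 : ℝ) * n) :=
        mul_le_mul e1 e2 (by positivity) (by positivity)
    _ = ((2 : ℝ) ^ ((313 : ℝ) / 969)) ^ n := by
        rw [← Real.rpow_add (by norm_num), ← Real.rpow_natCast, ← Real.rpow_mul (by norm_num)]
        congr 1
        ring

/-- a polynomial is bounded by an exponential function -/
lemma poly_le_exp (R : ℕ) {ρ : ℝ} (hρ : 1 < ρ) : ∃ C : ℝ, 0 ≤ C ∧ ∀ n : ℕ, (n : ℝ) ^ R ≤ C * ρ ^ n := by
  have h := tendsto_pow_const_div_const_pow_of_one_lt R hρ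
  obtain ⟨C, hC⟩ := h.bddAbove_range
  refine ⟨max C 0, le_max_right _ _, fun n => ?_⟩
  have h1 : (n : ℝ) ^ R / ρ ^ n ≤ C := hC ⟨n, rfl⟩
  have hp : 0 < ρ ^ n := by positivity
  rw [div_le_iff₀ hp] at h1
  exact h1.trans (mul_le_mul_of_nonneg_right (le_max_left _ _) hp.le)

/-- Multiple zeta values of depth at most `R` or at most `weight / 17` -/
theorem codim_smallDepth (R : ℕ) {y : ℝ} (hy0 : 0 ≤ y) (hy : y < bb) :
    ∀ᶠ k : ℕ in atTop, ∀ K : ℕ, 100 * K ≤ 103 * k →
        y ^ k < codim (fun l : SmallDepth R => mzv l.1) (fun l => l.1.sum) k K := by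
  set ρ : ℝ := (2 : ℝ) ^ ((313 : ℝ) / 969) with hρ
  have hρ1 : 1 < ρ := Real.one_lt_rpow (by norm_num) (by norm_num)
  obtain ⟨C, hC0, hC⟩ := poly_le_exp R hρ1
  have hcount := fun n : ℕ => count_subtype (fun l => l.length ≤ R ∨ 17 * l.length ≤ l.sum) n
    (max R (n / 17)) (fun l _ _ h hn => by
      rcases h with h | h
      · exact h.trans (le_max_left _ _)
      · refine le_trans ?_ (le_max_right _ _)
        rw [Nat.le_div_iff_mul_le (by norm_num)]
        omega)
  have hρτ : ρ ^ ((103 : ℝ) / 100) < bb := by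
    rw [hρ, ← Real.rpow_mul (by norm_num)]
    unfold bb
    exact Real.rpow_lt_rpow_of_exponent_lt (by norm_num) (by norm_num)
  have key := codim_exp (fun l : SmallDepth R => mzv l.1) (fun l => l.1.sum)
    (fun i => by have := two_le_sum i.2.1 i.2.2.1; omega) (C := R * C + 1) hρ1.le
    (τ := 103 / 100) (by norm_num) hρτ (fun n => (hcount n).1) (fun n => ?_) hy0 hy
  · filter_upwards [key] with k hk K hK
    refine hk K ?_
    have : ((100 * K : ℕ) : ℝ) ≤ ((103 * k : ℕ) : ℝ) := by exact_mod_cast hK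
    push_cast at this
    linarith
  · have h := (hcount n).2
    have hρn : 1 ≤ ρ ^ n := one_le_pow₀ hρ1.le
    by_cases hn : 2 ≤ n
    · rw [if_pos hn] at h
      have h1 : ∑ j ∈ Finset.range (max R (n / 17)), (n - 2).choose j ≤
          ∑ j ∈ Finset.range R, (n - 2).choose j + ∑ j ∈ Finset.range (n / 17), (n - 2).choose j := by
        rcases le_total R (n / 17) with h' | h'
        · rw [max_eq_right h']; exact Nat.le_add_left _ _
        · rw [max_eq_left h']; exact Nat.le_add_right _ _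
      have h2 : ∑ j ∈ Finset.range R, (n - 2).choose j ≤ R * n ^ R := by
        calc ∑ j ∈ Finset.range R, (n - 2).choose j ≤ ∑ j ∈ Finset.range R, n ^ R := by
              refine Finset.sum_le_sum fun j hj => ?_
              have hj' : j ≤ R := (Finset.mem_range.1 hj).le
              calc (n - 2).choose j ≤ (n - 2) ^ j := Nat.choose_le_pow _ _
                _ ≤ n ^ j := Nat.pow_le_pow_left (by omega) j
                _ ≤ n ^ R := Nat.pow_le_pow_right (by omega) hj'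
          _ = R * n ^ R := by simp
      have h3 := MZG.sum17_le n
      have h4 := h3.trans (rho_bound n)
      have h5 : ((∑ j ∈ Finset.range R, (n - 2).choose j : ℕ) : ℝ) ≤ R * (C * ρ ^ n) := by
        calc ((∑ j ∈ Finset.range R, (n - 2).choose j : ℕ) : ℝ) ≤ ((R * n ^ R : ℕ) : ℝ) := by
              exact_mod_cast h2
          _ = R * (n : ℝ) ^ R := by push_cast; ring
          _ ≤ R * (C * ρ ^ n) := mul_le_mul_of_nonneg_left (hC n) (Nat.cast_nonneg _)
      calc ({i : SmallDepth R | i.1.sum = n}.ncard : ℝ)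
          ≤ ((∑ j ∈ Finset.range R, (n - 2).choose j +
              ∑ j ∈ Finset.range (n / 17), (n - 2).choose j : ℕ) : ℝ) := by
            exact_mod_cast h.trans h1
        _ = ((∑ j ∈ Finset.range R, (n - 2).choose j : ℕ) : ℝ) +
              ((∑ j ∈ Finset.range (n / 17), (n - 2).choose j : ℕ) : ℝ) := by push_cast; ring
        _ ≤ R * (C * ρ ^ n) + ρ ^ n := add_le_add h5 h4
        _ = (R * C + 1) * ρ ^ n := by ring
    · rw [if_neg hn] at h
      have h0 : {i : SmallDepth R | i.1.sum = n}.ncard = 0 := Nat.le_zero.1 h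
      rw [h0]
      push_cast
      positivity

end MPe54452
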