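import Pool.Agent.Lib.MP_e54452_nt.TF.Count

/-!
# Families of at most exponential growth
-/

set_option autoImplicit false

namespace MPe54452

open Filter Topology

lemma inv_one_sub_le_exp {t : ℝ} (h1 : t < 1) : (1 - t)⁻¹ ≤ Real.exp (t / (1 - t)) := by
  have h : 0 < 1 - t := by linarith
  have e : (1 - t)⁻¹ = t / (1 - t) + 1 := by field_simp; ring
  rw [e]
  exact Real.add_one_le_exp _

lemma finite_le_of_fin {ι : Type} (w : ι → ℕ) (h : ∀ n, {i | w i = n}.Finite) (K : ℕ) :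
    {i | w i ≤ K}.Finite := by
  have e : {i | w i ≤ K} = ⋃ n ∈ Finset.range (K + 1), {i | w i = n} := by
    ext i
    simp [Nat.lt_succ_iff]
  rw [e]
  exact Set.Finite.biUnion (Finset.finite_toSet _) (fun n _ => h n)

/-- summation over a family by weights -/
lemma sum_by_weight {ι : Type} (w : ι → ℕ) (hw : ∀ i, 1 ≤ w i) (h : ∀ n, {i | w i = n}.Finite)
    (K : ℕ) (g : ℕ → ℝ) :
    ∑ i ∈ (finite_le_of_fin w h K).toFinset, g (w i) =
      ∑ n ∈ Finset.Icc 1 K, ({i | w i = n}.ncard : ℝ) * g n := by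
  classical
  rw [← Finset.sum_fiberwise_of_maps_to (s := (finite_le_of_fin w h K).toFinset)
    (t := Finset.Icc 1 K) (g := w)]
  · refine Finset.sum_congr rfl fun n hn => ?_
    have e1 : ∀ i ∈ (finite_le_of_fin w h K).toFinset.filter (fun i => w i = n), g (w i) = g n := by
      intro i hi
      rw [(Finset.mem_filter.1 hi).2]
    rw [Finset.sum_congr rfl e1, Finset.sum_const, nsmul_eq_mul]
    congr 2
    rw [Set.ncard_eq_toFinset_card _ (h n)]
    congr 1
    ext i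
    simp only [Finset.mem_filter, Set.Finite.mem_toFinset, Set.mem_ofPred_eq]
    constructor
    · exact fun h => h.2
    · intro h'
      refine ⟨?_, h'⟩
      rw [h']
      exact (Finset.mem_Icc.1 hn).2
  · intro i hi
    simp only [Set.Finite.mem_toFinset, Set.mem_ofPred_eq] at hi
    exact Finset.mem_Icc.2 ⟨hw i, hi⟩

/-- log of the product -/
lemma prod_le_exp_sum {ι : Type} (w : ι → ℕ) (hw : ∀ i, 1 ≤ w i) (h : ∀ n, {i | w i = n}.Finite)
    (K : ℕ) (q : ℝ) (hq0 : 0 < q) (hq1 : q < 1) (g : ℕ → ℝ)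
    (hg : ∀ n, 1 ≤ n → (1 - q ^ n)⁻¹ ≤ Real.exp (g n)) :
    ∏ i ∈ (finite_le_of_fin w h K).toFinset, (1 - q ^ (w i))⁻¹ ≤
      Real.exp (∑ n ∈ Finset.Icc 1 K, ({i | w i = n}.ncard : ℝ) * g n) := by
  rw [← sum_by_weight w hw h K g, Real.exp_sum]
  refine Finset.prod_le_prod (fun i _ => ?_) (fun i _ => hg _ (hw i))
  have : q ^ (w i) < 1 := pow_lt_one₀ hq0.le hq1 (by have := hw i; omega)
  have : 0 < 1 - q ^ (w i) := by linarith
  positivity

/-- number of monomials for a family of exponential growth -/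
theorem count_exp {ι : Type} (w : ι → ℕ) (hw : ∀ i, 1 ≤ w i) {C ρ : ℝ} (hC : 0 ≤ C) (hρ : 0 ≤ ρ)
    (hfin : ∀ n, {i | w i = n}.Finite) (hc : ∀ n, ({i | w i = n}.ncard : ℝ) ≤ C * ρ ^ n)
    {q : ℝ} (hq0 : 0 < q) (hq1 : q < 1) (hq : ρ * q < 1) (K : ℕ) :
    {f : ι →₀ ℕ | wt w f ≤ K}.Finite ∧
    ({f : ι →₀ ℕ | wt w f ≤ K}.ncard : ℝ) ≤
      (q⁻¹) ^ K * Real.exp (C / (1 - q) / (1 - ρ * q)) := by
  obtain ⟨h1, h2⟩ := count_aux w hw K (finite_le_of_fin w hfin K) q hq0 hq1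
  refine ⟨h1, h2.trans ?_⟩
  refine mul_le_mul_of_nonneg_left ?_ (by positivity)
  have hq1' : 0 < 1 - q := by linarith
  refine (prod_le_exp_sum w hw hfin K q hq0 hq1 (fun n => q ^ n / (1 - q)) ?_).trans ?_
  · intro n hn
    have hlt : q ^ n < 1 := pow_lt_one₀ hq0.le hq1 (by omega)
    have hle : q ^ n ≤ q := by
      calc q ^ n ≤ q ^ 1 := pow_le_pow_of_le_one hq0.le hq1.le hn
        _ = q := pow_one q
    refine (inv_one_sub_le_exp hlt).trans (Real.exp_le_exp.2 ?_)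
    have h0 : 0 ≤ q ^ n := by positivity
    exact div_le_div_of_nonneg_left h0 hq1' (by linarith)
  · refine Real.exp_le_exp.2 ?_
    have hr : 0 < 1 - ρ * q := by linarith
    have h3 : ∑ n ∈ Finset.Icc 1 K, ({i | w i = n}.ncard : ℝ) * (q ^ n / (1 - q)) ≤
        ∑ n ∈ Finset.Icc 1 K, (C / (1 - q)) * (ρ * q) ^ n := by
      refine Finset.sum_le_sum fun n _ => ?_
      calc ({i | w i = n}.ncard : ℝ) * (q ^ n / (1 - q)) ≤ (C * ρ ^ n) * (q ^ n / (1 - q)) :=
            mul_le_mul_of_nonneg_right (hc n) (by positivity)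
        _ = (C / (1 - q)) * (ρ * q) ^ n := by rw [mul_pow]; ring
    refine h3.trans ?_
    rw [← Finset.mul_sum]
    have h4 : ∑ n ∈ Finset.Icc 1 K, (ρ * q) ^ n ≤ (1 - ρ * q)⁻¹ := by
      have h5 : ∑ n ∈ Finset.Icc 1 K, (ρ * q) ^ n ≤ ∑ n ∈ Finset.range (K + 1), (ρ * q) ^ n := by
        refine Finset.sum_le_sum_of_subset_of_nonneg ?_ (fun n _ _ => by positivity)
        intro n hn
        rw [Finset.mem_range]
        have := (Finset.mem_Icc.1 hn).2
        omega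
      refine h5.trans ?_
      have := Summable.sum_le_tsum (Finset.range (K + 1)) (fun n _ => by positivity)
        (summable_geometric_of_lt_one (by positivity : 0 ≤ ρ * q) hq)
      rwa [tsum_geometric_of_lt_one (by positivity : 0 ≤ ρ * q) hq] at this
    calc C / (1 - q) * ∑ n ∈ Finset.Icc 1 K, (ρ * q) ^ n ≤ C / (1 - q) * (1 - ρ * q)⁻¹ :=
          mul_le_mul_of_nonneg_left h4 (by positivity)
      _ = _ := by rw [div_eq_mul_inv (C / (1 - q))]

end MPe54452
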