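import Pool.Agent.Lib.MP_e54452_nt.TF.Codim

/-!
# At most one number in each weight (for example the Riemann zeta values)
-/

set_option autoImplicit false

namespace MPe54452

open Filter Topology Module

/-- the classical bound for partitions -/
theorem sum_log_le {s : ℝ} (hs : 0 < s) (K : ℕ) :
    ∑ n ∈ Finset.Icc 1 K, Real.log ((1 - Real.exp (-s) ^ n)⁻¹) ≤ Real.pi ^ 2 / (6 * s) := by
  have hq0 : 0 < Real.exp (-s) := Real.exp_pos _
  have hq1 : Real.exp (-s) < 1 := by rw [Real.exp_lt_one_iff]; linarith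
  have h1 : HasSum (fun m : ℕ => ∑ n ∈ Finset.Icc 1 K, (Real.exp (-s) ^ n) ^ (m + 1) / ((m : ℝ) + 1))
      (∑ n ∈ Finset.Icc 1 K, Real.log ((1 - Real.exp (-s) ^ n)⁻¹)) := by
    refine hasSum_sum fun n hn => ?_
    have hn1 : 1 ≤ n := (Finset.mem_Icc.1 hn).1
    have h0 : 0 ≤ Real.exp (-s) ^ n := by positivity
    have hlt : Real.exp (-s) ^ n < 1 := pow_lt_one₀ hq0.le hq1 (by omega)
    rw [Real.log_inv]
    exact Real.hasSum_pow_div_log_of_abs_lt_one (by rw [abs_of_nonneg h0]; exact hlt)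
  have h2 : HasSum (fun m : ℕ => s⁻¹ * (1 / ((m : ℝ) + 1) ^ 2)) (s⁻¹ * (Real.pi ^ 2 / 6)) := by
    refine HasSum.mul_left _ ?_
    have h3 := (hasSum_nat_add_iff' 1).2 hasSum_zeta_two
    simpa using h3
  have h4 : ∀ m : ℕ, ∑ n ∈ Finset.Icc 1 K, (Real.exp (-s) ^ n) ^ (m + 1) / ((m : ℝ) + 1) ≤
      s⁻¹ * (1 / ((m : ℝ) + 1) ^ 2) := by
    intro m
    have hm : (0 : ℝ) < (m : ℝ) + 1 := by positivity
    set t : ℝ := Real.exp (-s) ^ (m + 1) with ht
    have ht0 : 0 < t := by positivity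
    have ht1 : t < 1 := pow_lt_one₀ hq0.le hq1 (by omega)
    have h5 : ∑ n ∈ Finset.Icc 1 K, (Real.exp (-s) ^ n) ^ (m + 1) / ((m : ℝ) + 1) =
        (∑ n ∈ Finset.Icc 1 K, t ^ n) / ((m : ℝ) + 1) := by
      rw [Finset.sum_div]
      refine Finset.sum_congr rfl fun n _ => ?_
      rw [ht, ← pow_mul, ← pow_mul, mul_comm]
    have h6 : ∑ n ∈ Finset.Icc 1 K, t ^ n ≤ t / (1 - t) := by
      have h7 : ∑ n ∈ Finset.Icc 1 K, t ^ n = t * ∑ n ∈ Finset.range K, t ^ n := by
        have e7 := Finset.sum_Ico_add' (fun n : ℕ => t ^ n) 0 K 1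
        have e8 : Finset.Icc 1 K = Finset.Ico (0 + 1) (K + 1) := by
          ext n
          simp only [Finset.mem_Icc, Finset.mem_Ico]
          omega
        rw [e8, ← e7, ← Finset.range_eq_Ico, Finset.mul_sum]
        refine Finset.sum_congr rfl fun n _ => ?_
        rw [pow_succ, mul_comm]
      have h8 := Summable.sum_le_tsum (Finset.range K) (fun n _ => by positivity)
        (summable_geometric_of_lt_one ht0.le ht1)
      rw [tsum_geometric_of_lt_one ht0.le ht1] at h8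
      rw [h7, div_eq_mul_inv]
      exact mul_le_mul_of_nonneg_left h8 ht0.le
    have h9 : t / (1 - t) ≤ 1 / (s * ((m : ℝ) + 1)) := by
      have h10 : t = (Real.exp (s * ((m : ℝ) + 1)))⁻¹ := by
        rw [ht, ← Real.exp_nat_mul, ← Real.exp_neg]
        congr 1
        push_cast
        ring
      have h11 : s * ((m : ℝ) + 1) + 1 ≤ Real.exp (s * ((m : ℝ) + 1)) := Real.add_one_le_exp _
      have h12 : 0 < s * ((m : ℝ) + 1) := by positivity
      have h13 : t * Real.exp (s * ((m : ℝ) + 1)) = 1 := by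
        rw [h10]; exact inv_mul_cancel₀ (Real.exp_pos _).ne'
      rw [div_le_div_iff₀ (by linarith) h12]
      nlinarith
    rw [h5, div_le_iff₀ hm]
    calc ∑ n ∈ Finset.Icc 1 K, t ^ n ≤ 1 / (s * ((m : ℝ) + 1)) := h6.trans h9
      _ = s⁻¹ * (1 / ((m : ℝ) + 1) ^ 2) * ((m : ℝ) + 1) := by field_simp
  have h14 := hasSum_le h4 h1 h2
  calc ∑ n ∈ Finset.Icc 1 K, Real.log ((1 - Real.exp (-s) ^ n)⁻¹) ≤ s⁻¹ * (Real.pi ^ 2 / 6) := h14
    _ = Real.pi ^ 2 / (6 * s) := by field_simp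

theorem count_one {ι : Type} (w : ι → ℕ) (hw : ∀ i, 1 ≤ w i) (hfin : ∀ n, {i | w i = n}.Finite)
    (hc : ∀ n, {i | w i = n}.ncard ≤ 1) (K : ℕ) (hK : 1 ≤ K) :
    {f : ι →₀ ℕ | wt w f ≤ K}.Finite ∧
    ({f : ι →₀ ℕ | wt w f ≤ K}.ncard : ℝ) ≤ Real.exp (Real.pi * Real.sqrt (2 * K / 3)) := by
  have hK0 : (0 : ℝ) < K := by exact_mod_cast hK
  set s : ℝ := Real.pi / Real.sqrt (6 * K) with hs
  have hsq : 0 < Real.sqrt (6 * K) := Real.sqrt_pos.2 (by positivity)
  have hs0 : 0 < s := div_pos Real.pi_pos hsq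
  have hq0 : 0 < Real.exp (-s) := Real.exp_pos _
  have hq1 : Real.exp (-s) < 1 := by rw [Real.exp_lt_one_iff]; linarith
  obtain ⟨h1, h2⟩ := count_aux w hw K (finite_le_of_fin w hfin K) (Real.exp (-s)) hq0 hq1
  refine ⟨h1, h2.trans ?_⟩
  have e1 : (Real.exp (-s))⁻¹ ^ K = Real.exp (s * K) := by
    rw [← Real.exp_neg, neg_neg, ← Real.exp_nat_mul, mul_comm]
  have hpos : ∀ n, 1 ≤ n → 1 ≤ (1 - Real.exp (-s) ^ n)⁻¹ := by
    intro n hn
    have h0 : 0 ≤ Real.exp (-s) ^ n := by positivity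
    have hlt : Real.exp (-s) ^ n < 1 := pow_lt_one₀ hq0.le hq1 (by omega)
    rw [one_le_inv₀ (by linarith)]
    linarith
  have h3 := prod_le_exp_sum w hw hfin K (Real.exp (-s)) hq0 hq1
    (fun n => Real.log ((1 - Real.exp (-s) ^ n)⁻¹)) (fun n hn => by
      rw [Real.exp_log (by have := hpos n hn; linarith)])
  have h4 : ∑ n ∈ Finset.Icc 1 K, ({i | w i = n}.ncard : ℝ) * Real.log ((1 - Real.exp (-s) ^ n)⁻¹) ≤
      ∑ n ∈ Finset.Icc 1 K, Real.log ((1 - Real.exp (-s) ^ n)⁻¹) := by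
    refine Finset.sum_le_sum fun n hn => ?_
    have hn1 : 1 ≤ n := (Finset.mem_Icc.1 hn).1
    have h5 : 0 ≤ Real.log ((1 - Real.exp (-s) ^ n)⁻¹) := Real.log_nonneg (hpos n hn1)
    have h6 : ({i | w i = n}.ncard : ℝ) ≤ 1 := by exact_mod_cast hc n
    nlinarith
  have h7 := sum_log_le hs0 K
  rw [e1]
  calc Real.exp (s * K) * ∏ i ∈ (finite_le_of_fin w hfin K).toFinset, (1 - Real.exp (-s) ^ w i)⁻¹
      ≤ Real.exp (s * K) * Real.exp (Real.pi ^ 2 / (6 * s)) :=
        mul_le_mul_of_nonneg_left (h3.trans (Real.exp_le_exp.2 (h4.trans h7))) (Real.exp_pos _).le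
    _ = Real.exp (s * K + Real.pi ^ 2 / (6 * s)) := (Real.exp_add _ _).symm
    _ = Real.exp (Real.pi * Real.sqrt (2 * K / 3)) := by
        congr 1
        have h8 : Real.sqrt (6 * K) ^ 2 = 6 * K := Real.sq_sqrt (by positivity)
        have h9 : Real.sqrt (2 * K / 3) = Real.sqrt (6 * K) / 3 := by
          rw [show (2 * (K : ℝ) / 3) = (6 * K) / 3 ^ 2 by ring, Real.sqrt_div (by positivity),
            Real.sqrt_sq (by norm_num)]
        rw [h9, hs]
        have hpi := Real.pi_ne_zero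
        field_simp
        nlinarith [h8]

/-- explicit codimension for a family with at most one number in each weight -/
theorem codim_one {ι : Type} (x : ι → ℝ) (w : ι → ℕ) (hw : ∀ i, 1 ≤ w i)
    (hfin : ∀ n, {i | w i = n}.Finite) (hc : ∀ n, {i | w i = n}.ncard ≤ 1)
    (k K : ℕ) (hk : 2 ≤ k) (hK : 1 ≤ K) :
    (2 : ℝ) ^ ((k : ℝ) / 3) / (16 * (k : ℝ) ^ ((5 : ℝ) / 3)) -
      Real.exp (Real.pi * Real.sqrt (2 * K / 3)) ≤ codim x w k K := by
  obtain ⟨h1, h2⟩ := count_one w hw hfin hc K hK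
  have h3 := codim_ge' x w k K hk h1
  linarith

/-- the numerical inequality behind the explicit statement -/
theorem numeric (k K : ℕ) (hk : 256 ≤ k) (hK : 200 * K ≤ k ^ 2) :
    Real.exp (Real.pi * Real.sqrt (2 * K / 3)) <
      (2 : ℝ) ^ ((k : ℝ) / 3) / (16 * (k : ℝ) ^ ((5 : ℝ) / 3)) := by
  have hk' : (256 : ℝ) ≤ k := by exact_mod_cast hk
  have hk0 : (0 : ℝ) < k := by linarith
  have hK' : (K : ℝ) ≤ (k : ℝ) ^ 2 / 200 := by
    rw [le_div_iff₀ (by norm_num)]
    have : ((200 * K : ℕ) : ℝ) ≤ ((k ^ 2 : ℕ) : ℝ) := by exact_mod_cast hK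
    push_cast at this
    linarith
  have hden : 0 < 16 * (k : ℝ) ^ ((5 : ℝ) / 3) := by positivity
  rw [lt_div_iff₀ hden]
  have hlog : Real.exp (Real.pi * Real.sqrt (2 * K / 3)) * (16 * (k : ℝ) ^ ((5 : ℝ) / 3)) =
      Real.exp (Real.pi * Real.sqrt (2 * K / 3) + (4 * Real.log 2 + (5 / 3) * Real.log k)) := by
    rw [Real.exp_add, Real.exp_add]
    congr 2
    · rw [show (4 : ℝ) * Real.log 2 = ((4 : ℕ) : ℝ) * Real.log 2 by norm_num, Real.exp_nat_mul,
        Real.exp_log (by norm_num)]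
      norm_num
    · rw [Real.rpow_def_of_pos hk0]
      congr 1
      ring
  have h2 : (2 : ℝ) ^ ((k : ℝ) / 3) = Real.exp (Real.log 2 * (k / 3)) := by
    rw [Real.rpow_def_of_pos (by norm_num)]
  rw [hlog, h2]
  refine Real.exp_lt_exp.2 ?_
  -- bounds
  have hsqrt : Real.sqrt (2 * K / 3) ≤ 5774 / 100000 * k := by
    rw [Real.sqrt_le_left (by positivity)]
    nlinarith [sq_nonneg (k : ℝ)]
  have hpi : Real.pi < 3.1416 := by
    have := Real.pi_lt_d4
    linarith
  have h3 : Real.pi * Real.sqrt (2 * K / 3) ≤ 3.1416 * (5774 / 100000 * k) :=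
    mul_le_mul hpi.le hsqrt (Real.sqrt_nonneg _) (by norm_num)
  have h4 : Real.log k ≤ 8 * Real.log 2 + (k / 256 - 1) := by
    have e : Real.log k = Real.log 256 + Real.log (k / 256) := by
      rw [← Real.log_mul (by norm_num) (by positivity)]
      congr 1
      field_simp
    have e2 : Real.log 256 = 8 * Real.log 2 := by
      rw [show (256 : ℝ) = 2 ^ 8 by norm_num, Real.log_pow]
      norm_num
    rw [e, e2]
    have := Real.log_le_sub_one_of_pos (show (0 : ℝ) < k / 256 by positivity)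
    linarith
  have h5 := Real.log_two_gt_d9
  have h6 := Real.log_two_lt_d9
  nlinarith

/-- For every `k ≥ 256` and every `K ≤ k² / 200` not all multiple zeta values of weight `k` are
polynomials of weight at most `K` in a family with at most one number in each weight. -/
theorem not_le_one {ι : Type} (x : ι → ℝ) (w : ι → ℕ) (hw : ∀ i, 1 ≤ w i)
    (hfin : ∀ n, {i | w i = n}.Finite) (hc : ∀ n, {i | w i = n}.ncard ≤ 1)
    (k K : ℕ) (hk : 256 ≤ k) (hK : 200 * K ≤ k ^ 2) :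
    0 < codim x w k K := by
  rcases Nat.eq_zero_or_pos K with rfl | hK1
  · have h1 := numeric k 1 hk (by nlinarith)
    have h2 : Real.exp 0 < Real.exp (Real.pi * Real.sqrt (2 * (1 : ℕ) / 3)) := by
      refine Real.exp_lt_exp.2 ?_
      have := Real.pi_pos
      have : 0 < Real.sqrt (2 * ((1 : ℕ) : ℝ) / 3) := Real.sqrt_pos.2 (by norm_num)
      positivity
    rw [Real.exp_zero] at h2
    have hset : {f : ι →₀ ℕ | wt w f ≤ 0} = {0} := by
      ext f
      simp only [Set.mem_ofPred_eq, Set.mem_singleton_iff, Nat.le_zero]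
      constructor
      · intro hf
        ext i
        exact eq_zero_of_wt w f (K := 0) hf.le (by have := hw i; omega)
      · rintro rfl
        simp [wt]
    have hf0 : {f : ι →₀ ℕ | wt w f ≤ 0}.Finite := by rw [hset]; exact Set.finite_singleton _
    have h3 := codim_ge' x w k 0 (by omega) hf0
    rw [hset, Set.ncard_singleton] at h3
    push_cast at h3
    push_cast at h1
    push_cast at h2
    linarith
  · have h1 := numeric k K hk hK
    have h2 := codim_one x w hw hfin hc k K (by omega) hK1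
    linarith

end MPe54452
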